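import Pool.Agent.N557.QW.Stm

/-!
# Project QWP, part AHU: the unitaries of an amalgamated free product
-/

set_option autoImplicit false

namespace Pool.Agent.N78.QWP

open Pool.Agent.H494R3.GT Pool.Agent.N557.QW
open scoped ComplexOrder CStarAlgebra

noncomputable section

/-- the unitaries of `L(G)` -/
def Lg (G : Type) [Group G] : G →* (LG G).toStarSubalgebra where
  toFun g := ⟨lam g, lam_mem g⟩
  map_one' := Subtype.ext lam_one
  map_mul' a b := Subtype.ext (lam_mul a b)

lemma star_Lg {G : Type} [Group G] (g : G) : star (Lg G g) = Lg G g⁻¹ := Subtype.ext (star_lam g)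

lemma cf_lam {G : Type} [Group G] (k g : G) (h : g ≠ k) : cf (lam k) g = 0 := by
  unfold cf
  rw [lam_dl, mul_one, inner_dl]
  exact dl_apply_ne h

/-- the unitary representation of `G` -/
def Uh {G : Type} [Group G] {H : Type} [NormedAddCommGroup H] [InnerProductSpace ℂ H]
    [CompleteSpace H] (ρ : (LG G).toStarSubalgebra →⋆ₐ[ℂ] (H →L[ℂ] H)) :
    G →* unitary (H →L[ℂ] H) where
  toFun g := ⟨ρ (Lg G g), by
    rw [Unitary.mem_iff]
    constructor
    · rw [← map_star, star_Lg, ← map_mul, ← map_mul, inv_mul_cancel, map_one, map_one]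
    · rw [← map_star, star_Lg, ← map_mul, ← map_mul, mul_inv_cancel, map_one, map_one]⟩
  map_one' := Subtype.ext (by
    change ρ (Lg G 1) = 1
    rw [map_one, map_one])
  map_mul' a b := Subtype.ext (by
    change ρ (Lg G (a * b)) = ρ (Lg G a) * ρ (Lg G b)
    rw [map_mul, map_mul])

lemma Uh_val {G : Type} [Group G] {H : Type} [NormedAddCommGroup H] [InnerProductSpace ℂ H]
    [CompleteSpace H] (ρ : (LG G).toStarSubalgebra →⋆ₐ[ℂ] (H →L[ℂ] H)) (g : G) :
    ((Uh ρ g : unitary (H →L[ℂ] H)) : H →L[ℂ] H) = ρ (Lg G g) := rfl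

theorem t_ahu (h : S_RDC) (hl : S_LKM) (_hc : S_COM) : S_AHU := by
  intro G _ K H _ _ _ M η π hfp
  have hK : ∀ k : K, lam (k : G) ∈ LK K := by
    intro k
    rw [(hl G K).1]
    exact ⟨lam_mem _, fun g hg => cf_lam _ _ (fun h => hg (h ▸ k.2))⟩
  have hag : ∀ (i : Fin 2) (k : K), π i (Lg G (k : G)) = π 0 (Lg G (k : G)) := by
    intro i k
    have h1 := hfp.agree (Lg G (k : G)) (hK k)
    fin_cases i
    · rfl
    · exact h1.symm
  let u : Monoid.PushoutI (fun _ : Fin 2 => K.subtype) →* unitary (H →L[ℂ] H) :=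
    Monoid.PushoutI.lift (fun i => Uh (π i)) ((Uh (π 0)).comp K.subtype) (fun i => by
      refine MonoidHom.ext fun k => Subtype.ext ?_
      exact hag i k)
  have huof : ∀ (i : Fin 2) (g : G),
      u (Monoid.PushoutI.of (φ := fun _ : Fin 2 => K.subtype) i g) = Uh (π i) g := fun i g =>
    Monoid.PushoutI.lift_of _ _ _ _
  have hubase : ∀ k : K, u (Monoid.PushoutI.base (fun _ : Fin 2 => K.subtype) k) =
      Uh (π 0) (k : G) := fun k => Monoid.PushoutI.lift_base _ _ _ _
  refine ⟨u, fun γ => ?_, fun γ hγ => ?_⟩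
  · induction γ using Monoid.PushoutI.induction_on with
    | of i g => rw [huof]; exact hfp.mem i _
    | base k => rw [hubase]; exact hfp.mem 0 _
    | mul x y hx hy =>
      rw [map_mul]
      exact M.toStarSubalgebra.mul_mem hx hy
  · rcases (h G K).2 γ with ⟨k, rfl⟩ | ⟨n, i, g, hi, hg, rfl⟩
    · rw [hubase, Uh_val, hfp.trace]
      have hk : (k : G) ≠ 1 := by
        intro hk
        apply hγ
        have : k = 1 := Subtype.ext hk
        rw [this, map_one]
      change inner ℂ (dl 1) (lam (k : G) (dl 1)) = 0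
      rw [lam_dl, mul_one, inner_dl]
      exact dl_apply_ne hk.symm
    · have h1 := hfp.free n i (fun j => Lg G (g j)) hi (fun j b hb => by
        have hb' := ((hl G K).1 b).1 hb
        change inner ℂ (dl 1) (b (lam (g j) (dl 1))) = 0
        rw [lam_dl, mul_one, mem_LG_iff.1 hb'.1]
        refine hb'.2 _ ?_
        rw [one_mul]
        intro hc
        exact hg j (by simpa using K.inv_mem hc))
      have h2 : ((u (List.ofFn fun j =>
          Monoid.PushoutI.of (φ := fun _ : Fin 2 => K.subtype) (i j) (g j)).prod :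
          unitary (H →L[ℂ] H)) : H →L[ℂ] H) = (List.ofFn fun j => π (i j) (Lg G (g j))).prod := by
        have h3 : u (List.ofFn fun j =>
            Monoid.PushoutI.of (φ := fun _ : Fin 2 => K.subtype) (i j) (g j)).prod =
            (List.ofFn fun j => Uh (π (i j)) (g j)).prod := by
          rw [map_list_prod, List.map_ofFn]
          congr 2
        rw [h3]
        have h4 := map_list_prod (unitary (H →L[ℂ] H)).subtype
          (List.ofFn fun j => Uh (π (i j)) (g j))
        rw [List.map_ofFn] at h4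
        exact h4
      rw [h2]
      exact h1

end

end Pool.Agent.N78.QWP
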